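import Pool.Agent.H508R3.AT.Stmts

set_option autoImplicit false

namespace Pool.Agent.H115R3.AT

open MeasureTheory Filter Topology Set
open scoped symmDiff ENNReal
open Pool.Agent.H508R3.AT
open Pool.Agent.H695R3.AT

variable {s : ℕ → ℕ}

lemma comb_meas (N : ℕ) : Measurable (fun p : Om s × Om s => comb s N p.1 p.2) := by
  unfold comb
  refine measurable_pi_lambda _ fun x => ?_
  by_cases h : x.1 < N
  · simp only [h, if_true]; fun_prop
  · simp only [h, if_false]; fun_prop

/-- approximation by a set depending only on the shells `< N` -/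
lemma approx (Pv : Measure ℝ) [IsProbabilityMeasure Pv] (B : Set (Om s)) (hB : MeasurableSet B)
    (η : ℝ≥0∞) (hη : 0 < η) :
    ∃ (N : ℕ) (C : Set (Om s)), MeasurableSet C ∧
      (∀ g v : Om s, (comb s N g v ∈ C ↔ g ∈ C)) ∧ PP s Pv (C ∆ B) < η := by
  have hring : IsSetRing (measurableCylinders fun _ : Vtx s => ℝ) :=
    { empty_mem := empty_mem_measurableCylinders _
      union_mem := fun _ _ h1 h2 => union_mem_measurableCylinders h1 h2
      sdiff_mem := fun _ _ h1 h2 => sdiff_mem_measurableCylinders h1 h2 }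
  obtain ⟨C, hC, hCB⟩ := exists_measure_symmDiff_lt_of_generateFrom_isSetRing (μ := PP s Pv) hring
    ⟨{univ}, countable_singleton _,
      by simpa using univ_mem_measurableCylinders (fun _ : Vtx s => ℝ), by simp⟩
    (generateFrom_measurableCylinders).symm hB hη
  obtain ⟨t, S, hS, rfl⟩ := (mem_measurableCylinders _).1 hC
  obtain ⟨N, hN⟩ := exists_shells t
  refine ⟨N, _, hS.cylinder, ?_, hCB⟩
  intro g v
  rw [mem_cylinder, mem_cylinder]
  have : t.restrict (comb s N g v) = t.restrict g := by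
    funext x
    have h1 : x.1.1 < N := mem_shells.1 (hN x.2)
    simp [Finset.restrict, comb, h1]
  rw [this]

theorem t3 (h0 : T0) : T3 := by
  intro s Pv hPv B hB hB0 ε hε
  by_contra hcon
  push Not at hcon
  set P := PP s Pv with hP
  have hε' : (0 : ℝ≥0∞) < ENNReal.ofReal ε := ENNReal.ofReal_pos.2 hε
  have hB2 : (0 : ℝ≥0∞) < P B / 2 := ENNReal.half_pos hB0
  obtain ⟨N, C, hCm, hC, hCB⟩ := approx Pv B hB (min (P B / 2) (ENNReal.ofReal ε * (P B / 2)))
    (lt_min hB2 (ENNReal.mul_pos hε'.ne' hB2.ne'))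
  have h1 : P B ≤ P C + P (C ∆ B) := by
    refine (measure_mono (fun x hx => ?_)).trans (measure_union_le C (C ∆ B))
    by_cases h : x ∈ C
    · exact Or.inl h
    · exact Or.inr (Or.inr ⟨hx, h⟩)
  have h2 : P B / 2 ≤ P C := by
    have h3 : P B ≤ P C + P B / 2 := h1.trans (by
      gcongr
      exact hCB.le.trans (min_le_left _ _))
    have h4 : P B / 2 + P B / 2 ≤ P C + P B / 2 := by rwa [ENNReal.add_halves]
    exact (ENNReal.add_le_add_iff_right
      (ENNReal.div_ne_top (measure_ne_top _ _) (by norm_num))).1 h4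
  have hmp := (h0 s Pv hPv N).measure_preimage (hCm.diff hB).nullMeasurableSet
  have h5 : ENNReal.ofReal ε * P C ≤ P (C \ B) := by
    rw [← hmp, Measure.prod_apply ((comb_meas N) (hCm.diff hB))]
    rw [← setLIntegral_const]
    refine (setLIntegral_mono' hCm fun g hg => ?_).trans (setLIntegral_le_lintegral C _)
    refine (hcon N g).le.trans (measure_mono fun v hv => ?_)
    exact ⟨(hC g v).2 hg, hv⟩
  have h6 : P (C \ B) ≤ P (C ∆ B) := measure_mono fun x hx => Or.inl hx
  have h7 : ENNReal.ofReal ε * (P B / 2) < ENNReal.ofReal ε * (P B / 2) :=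
    calc ENNReal.ofReal ε * (P B / 2) ≤ ENNReal.ofReal ε * P C := by gcongr
      _ ≤ P (C \ B) := h5
      _ ≤ P (C ∆ B) := h6
      _ < _ := hCB
      _ ≤ _ := min_le_right _ _
  exact lt_irrefl _ h7

end Pool.Agent.H115R3.AT
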